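import Pool.Agent.Helper26.HW.Stmts

/-!
# Row PCN: pairs at small distance, counted by the short range part of the repulsion
-/

set_option autoImplicit false

namespace Pool.Agent.Helper24.HX

open MeasureTheory Filter Pool.Agent.Helper95 Pool.Agent.Helper95.PW Pool.Agent.Helper95.LN
  Pool.Agent.Helper95.CF
open Pool.Agent.Helper95.HV Pool.Agent.Helper26.HW

lemma half_sum {n : ℕ} (S : Fin n → Fin n → ℝ) (hs : ∀ i j, S i j = S j i)
    (h0 : ∀ i, S i i = 0) :
    2 * (∑ i, ∑ j, if i < j then S i j else 0) = ∑ i, ∑ j, S i j := by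
  have e : ∀ i j, S i j = (if i < j then S i j else 0) + (if j < i then S i j else 0) := by
    intro i j
    rcases lt_trichotomy i j with h | h | h
    · rw [if_pos h, if_neg (not_lt.2 h.le), add_zero]
    · subst h
      rw [if_neg (lt_irrefl i), h0, add_zero]
    · rw [if_neg (not_lt.2 h.le), if_pos h, zero_add]
  have e2 : ∑ i, ∑ j, (if j < i then S i j else 0) = ∑ i, ∑ j, if i < j then S i j else 0 := by
    rw [Finset.sum_comm]
    refine Finset.sum_congr rfl fun i _ => Finset.sum_congr rfl fun j _ => ?_
    rw [hs j i]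
  have e3 : ∑ i, ∑ j, S i j = (∑ i, ∑ j, if i < j then S i j else 0) +
      ∑ i, ∑ j, if j < i then S i j else 0 := by
    rw [← Finset.sum_add_distrib]
    refine Finset.sum_congr rfl fun i _ => ?_
    rw [← Finset.sum_add_distrib]
    exact Finset.sum_congr rfl fun j _ => e i j
  rw [e3, e2]
  ring

lemma nr_comm (x y : R3) : nr (x - y) = nr (y - x) := by
  unfold nr
  congr 1
  simp only [Pi.sub_apply]
  ring

theorem PCN (hK : ST_KK) : ST_PCN := by
  intro d n M X x hd hx
  set S : Fin n → Fin n → ℝ := fun k l => if k = l then 0 else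
    if nr (x k - x l) < d / 32 then 1 else 0 with hS
  have hSs : ∀ i j, S i j = S j i := by
    intro i j
    simp only [hS]
    by_cases h : i = j
    · rw [if_pos h, if_pos h.symm]
    · rw [if_neg h, if_neg (Ne.symm h), nr_comm]
  have h0 : ∀ i, S i i = 0 := fun i => by simp [hS]
  have hsum : ∑ k, ∑ l, (if nr (x k - x l) < d / 32 then (1 : ℝ) else 0) =
      n + ∑ k, ∑ l, S k l := by
    have e : ∀ k l, (if nr (x k - x l) < d / 32 then (1 : ℝ) else 0) =
        (if k = l then 1 else 0) + S k l := by
      intro k l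
      simp only [hS]
      by_cases h : k = l
      · subst h
        have : nr (x k - x k) = 0 := by simp [nr]
        rw [if_pos rfl, if_pos rfl, this, if_pos (by positivity), add_zero]
      · rw [if_neg h, if_neg h, zero_add]
    simp_rw [e, Finset.sum_add_distrib]
    simp
  rw [hsum, ← half_sum S hSs h0]
  unfold Rem
  rw [Finset.mul_sum, Finset.mul_sum]
  refine add_le_add_right (Finset.sum_le_sum fun k _ => ?_) _
  rw [Finset.mul_sum, Finset.mul_sum]
  refine Finset.sum_le_sum fun l _ => ?_
  by_cases h : k < l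
  · rw [if_pos h, if_pos h]
    have hne := hx.1 k l h.ne
    have hn0 : 0 ≤ nr (x k - x l) := Real.sqrt_nonneg _
    have hpos : 0 < nr (x k - x l) := lt_of_le_of_ne hn0 (Ne.symm hne)
    obtain ⟨-, k1, -, k2⟩ := hK (d / 8) (x k - x l) (by positivity)
    have k3 := k1 hne
    simp only [hS]
    rw [if_neg h.ne]
    by_cases hr : nr (x k - x l) < d / 32
    · rw [if_pos hr]
      have h1 : 32 / d ≤ 1 / nr (x k - x l) := by
        rw [div_le_div_iff₀ hd hpos]
        linarith
      have h2 : 2 / (d / 8) = 16 / d := by field_simp; norm_num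
      rw [h2] at k2
      have h3 : 16 / d ≤ 1 / nr (x k - x l) - Kf (d / 8) (x k - x l) := by
        have : 32 / d - 16 / d = 16 / d := by ring
        linarith
      have h4 : d / 8 * (16 / d) = 2 := by field_simp; norm_num
      have h5 := mul_le_mul_of_nonneg_left h3 (by positivity : 0 ≤ d / 8)
      linarith
    · rw [if_neg hr, mul_zero]
      exact mul_nonneg (by positivity) (by linarith)
  · rw [if_neg h, if_neg h]
    simp

end Pool.Agent.Helper24.HX
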